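import Mathlib
import Pool.Agent.V1199.AdpConseq

/-!
# MP_bb1dce_an, Q1: infinite-dimensional spaces with the super ADP contain `ℓ₁`

In a Banach space with the super alternative Daugavet property the sets
`{x* : |x*(y)| > 1 - ε}` of functionals meet any finitely many weak-star slices at once, for vectors
`y` from any given weakly open set (`Pool.Agent.V1199.exists_independent`). This gives a sequence
`(y_n)` in the unit ball such that every finite 0-1 pattern is realised, up to `1/8`, by a
functional in the dual ball. Such a sequence is equivalent to the unit vector basis of `ℓ₁`
(`containsL1_of_indep`).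
-/

open Set Filter Topology

namespace Pool.Agent.Results.MP_bb1dce_an.ContainsEllOne

open Pool.Agent.V1199

/-- Every infinite-dimensional Banach space (real or complex) with the super alternative
Daugavet property contains a closed subspace isomorphic to `ℓ₁`. -/
theorem result (𝕜 : Type*) [RCLike 𝕜] (X : Type*) [NormedAddCommGroup X] [NormedSpace 𝕜 X]
    [CompleteSpace X] (hinf : ¬ FiniteDimensional 𝕜 X) (hX : SuperADP 𝕜 X) :
    ContainsL1 𝕜 X := by
  obtain ⟨y, hy⟩ := exists_independent hX hinf (η := 1 / 8) (by norm_num)
  exact containsL1_of_indep hy

end Pool.Agent.Results.MP_bb1dce_an.ContainsEllOne
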